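import Pool.Agent.H380.BE.Inv

/-!
# Almost everywhere convergence for almost every ellipsoid
-/

set_option autoImplicit false

open MeasureTheory Set Metric Complex Filter Topology
open scoped ENNReal ContDiff

namespace Pool.Agent.H380.BE

open Pool.Agent.W203.BE

/-- maximal function over the rational radii -/
noncomputable def MQ {n : ℕ} (δ : ℝ) (f : (Fin n → ℝ) → ℂ) (p : (Fin n → ℝ) × (Fin n → ℝ)) : ℝ≥0∞ :=
  ⨆ q : {q : ℚ // 0 < q}, ‖S δ p.1 (q.1 : ℝ) f p.2‖ₑ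

lemma MQ_meas {n : ℕ} {δ : ℝ} (hδ : 0 < δ) {f : (Fin n → ℝ) → ℂ} (hf : Integrable f) : Measurable (MQ δ f) :=
  Measurable.iSup fun q => (S_meas hδ (q.1 : ℝ) hf).enorm

lemma MQ_le {n : ℕ} (δ : ℝ) (f : (Fin n → ℝ) → ℂ) (a x : Fin n → ℝ) :
    MQ δ f (a, x) ≤ ⨆ R : {R : ℝ // 0 < R}, ‖S δ a R f x‖ₑ :=
  iSup_le fun q => le_iSup (fun R : {R : ℝ // 0 < R} => ‖S δ a R f x‖ₑ) ⟨(q.1 : ℝ), by exact_mod_cast q.2⟩

lemma le_MQ {n : ℕ} {δ : ℝ} (hδ : 0 < δ) {f : (Fin n → ℝ) → ℂ} (hf : Integrable f) {a : Fin n → ℝ}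
    (ha : ∀ j, 0 < a j) (x : Fin n → ℝ) {R : ℝ} (hR : 0 < R) : ‖S δ a R f x‖ₑ ≤ MQ δ f (a, x) := by
  by_contra hcon
  push Not at hcon
  have hc : ContinuousAt (fun R => ‖S δ a R f x‖ₑ) R := (continuous_enorm.continuousAt).comp (S_contR hδ ha hR hf x)
  have h1 : ∀ᶠ R' in 𝓝 R, MQ δ f (a, x) < ‖S δ a R' f x‖ₑ ∧ 0 < R' :=
    (hc.eventually (lt_mem_nhds hcon)).and (lt_mem_nhds hR)
  obtain ⟨ε, hε, h2⟩ := Metric.eventually_nhds_iff.1 h1
  obtain ⟨q, hq1, hq2⟩ := exists_rat_btwn (by linarith : R < R + ε)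
  have h3 := h2 (y := (q : ℝ)) (by rw [Real.dist_eq, abs_of_pos (by linarith)]; linarith)
  have hq0 : (0 : ℚ) < q := by exact_mod_cast h3.2
  exact absurd (le_iSup (fun q : {q : ℚ // 0 < q} => ‖S δ a (q.1 : ℝ) f x‖ₑ) ⟨q, hq0⟩) (not_le.2 h3.1)

/-- the `L^p` norm as an integral -/
lemma lint_of_eLp {n : ℕ} {p : ℝ} (hp : 0 < p) (h : (Fin n → ℝ) → ℂ) {ε : ℝ} (hε : 0 ≤ ε)
    (hh : eLpNorm h (ENNReal.ofReal p) volume ≤ ENNReal.ofReal ε) :
    ∫⁻ x, ‖h x‖ₑ ^ p ≤ ENNReal.ofReal (ε ^ p) := by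
  rw [eLpNorm_eq_lintegral_rpow_enorm_toReal (by simpa using hp) ENNReal.ofReal_ne_top,
    ENNReal.toReal_ofReal hp.le] at hh
  have h2 := ENNReal.rpow_le_rpow hh hp.le
  rw [← ENNReal.rpow_mul, one_div, inv_mul_cancel₀ hp.ne', ENNReal.rpow_one,
    ENNReal.ofReal_rpow_of_nonneg hε hp.le] at h2
  exact h2

/-- Almost everywhere convergence for almost every ellipsoid. -/
theorem ae_conv (n : ℕ) (p δ : ℝ) (hp : 2 ≤ p) (hp4 : p ≤ 4) (hδ : 0 < δ) (f : (Fin n → ℝ) → ℂ)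
    (hf : Integrable f) (hfp : MemLp f (ENNReal.ofReal p) volume) :
    ∀ᵐ a : Fin n → ℝ, (∀ j, 0 < a j) → ∀ᵐ x : Fin n → ℝ, Tendsto (fun R => S δ a R f x) atTop (𝓝 (f x)) := by
  have hp0 : 0 < p := by linarith
  have hg : ∀ k : ℕ, ∃ g : (Fin n → ℝ) → ℂ, HasCompactSupport g ∧ ContDiff ℝ ∞ g ∧
      eLpNorm (f - g) (ENNReal.ofReal p) volume ≤ ENNReal.ofReal ((1 / 2) ^ k) := fun k =>
    hfp.exist_eLpNorm_sub_le ENNReal.ofReal_ne_top (by
      rw [ENNReal.one_le_ofReal]; linarith) (by positivity)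
  choose g hg1 hg2 hg3 using hg
  have hgi : ∀ k, Integrable (g k) := fun k => (hg2 k).continuous.integrable_of_hasCompactSupport (hg1 k)
  have hdi : ∀ k, Integrable (fun y => f y - g k y) := fun k => hf.sub (hgi k)
  have hlt : ∀ k, ∫⁻ x, ‖f x - g k x‖ₑ ^ p ≤ ENNReal.ofReal ((1 / 2) ^ k) := by
    intro k
    refine (lint_of_eLp hp0 (f - g k) (by positivity) (hg3 k)).trans (ENNReal.ofReal_le_ofReal ?_)
    calc ((1 / 2 : ℝ) ^ k) ^ p ≤ ((1 / 2 : ℝ) ^ k) ^ (1 : ℝ) :=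
          Real.rpow_le_rpow_of_exponent_ge (by positivity) (pow_le_one₀ (by norm_num) (by norm_num)) (by linarith)
      _ = _ := Real.rpow_one _
  have hsumk : ∑' k : ℕ, ENNReal.ofReal ((1 / 2 : ℝ) ^ k) ≠ ⊤ := by
    rw [← ENNReal.ofReal_tsum_of_nonneg (fun k => by positivity)
      (summable_geometric_of_lt_one (by norm_num) (by norm_num))]
    exact ENNReal.ofReal_ne_top
  -- pointwise convergence of the approximants
  have hgm : ∀ k, AEMeasurable (fun x => ‖f x - g k x‖ₑ ^ p) volume := fun k =>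
    ((hdi k).1.enorm).pow_const p
  have hA : ∀ᵐ x : Fin n → ℝ, Tendsto (fun k => ‖f x - g k x‖ₑ) atTop (𝓝 0) := by
    have h1 : ∫⁻ x, ∑' k, ‖f x - g k x‖ₑ ^ p ≠ ⊤ := by
      rw [lintegral_tsum hgm]
      exact ne_top_of_le_ne_top hsumk (ENNReal.tsum_le_tsum hlt)
    have h2 := ae_lt_top' (AEMeasurable.ennreal_tsum hgm) h1
    filter_upwards [h2] with x hx
    have h3 := ENNReal.tendsto_atTop_zero_of_tsum_ne_top hx.ne
    have h4 := h3.ennrpow_const (1 / p)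
    rw [ENNReal.zero_rpow_of_pos (by positivity)] at h4
    refine h4.congr fun k => ?_
    rw [← ENNReal.rpow_mul, mul_one_div, div_self hp0.ne', ENNReal.rpow_one]
  -- boxes
  have hbox : ∀ N : ℕ, ∀ᵐ a : Fin n → ℝ, a ∈ Icc (fun _ : Fin n => 1 / ((N : ℝ) + 1)) (fun _ => (N : ℝ) + 1) →
      ∀ᵐ x : Fin n → ℝ, Tendsto (fun R => S δ a R f x) atTop (𝓝 (f x)) := by
    intro N
    have hN : (0 : ℝ) < 1 / ((N : ℝ) + 1) := by positivity
    obtain ⟨C, hC, hmain⟩ := main_box n p δ hp hp4 hδ (1 / ((N : ℝ) + 1)) ((N : ℝ) + 1) hN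
    set Q := Icc (fun _ : Fin n => 1 / ((N : ℝ) + 1)) (fun _ => (N : ℝ) + 1) with hQ
    have hMm : ∀ k, Measurable fun q : (Fin n → ℝ) × (Fin n → ℝ) => MQ δ (fun y => f y - g k y) q ^ p := fun k =>
      (MQ_meas hδ (hdi k)).pow_const p
    have hMs : Measurable fun q : (Fin n → ℝ) × (Fin n → ℝ) => ∑' k, MQ δ (fun y => f y - g k y) q ^ p :=
      Measurable.ennreal_tsum hMm
    have h1 : ∀ k, ∫⁻ a in Q, ∫⁻ x, MQ δ (fun y => f y - g k y) (a, x) ^ p ≤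
        ENNReal.ofReal C * ENNReal.ofReal ((1 / 2) ^ k) := by
      intro k
      calc ∫⁻ a in Q, ∫⁻ x, MQ δ (fun y => f y - g k y) (a, x) ^ p
          ≤ ∫⁻ a in Q, Gf δ p (fun y => f y - g k y) a := by
            refine lintegral_mono fun a => ?_
            refine lintegral_mono fun x => ?_
            exact ENNReal.rpow_le_rpow (MQ_le δ _ a x) hp0.le
        _ ≤ ENNReal.ofReal C * ∫⁻ x, ‖f x - g k x‖ₑ ^ p := hmain _ (hdi k)
        _ ≤ _ := by gcongr; exact hlt k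
    have h2 : ∫⁻ a in Q, ∫⁻ x, ∑' k, MQ δ (fun y => f y - g k y) (a, x) ^ p ≠ ⊤ := by
      have e : ∀ a : Fin n → ℝ, ∫⁻ x, ∑' k, MQ δ (fun y => f y - g k y) (a, x) ^ p =
          ∑' k, ∫⁻ x, MQ δ (fun y => f y - g k y) (a, x) ^ p := fun a =>
        lintegral_tsum fun k => ((hMm k).comp measurable_prodMk_left).aemeasurable
      simp_rw [e]
      rw [lintegral_tsum fun k => ((hMm k).lintegral_prod_right').aemeasurable]
      refine ne_top_of_le_ne_top ?_ (ENNReal.tsum_le_tsum h1)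
      rw [ENNReal.tsum_mul_left]
      exact ENNReal.mul_ne_top ENNReal.ofReal_ne_top hsumk
    have h3 := ae_lt_top (hMs.lintegral_prod_right') h2
    rw [ae_restrict_iff' measurableSet_Icc] at h3
    filter_upwards [h3] with a ha haQ
    have hapos : ∀ j, 0 < a j := fun j => hN.trans_le (haQ.1 j)
    have h4 := ae_lt_top (hMs.comp (measurable_prodMk_left (x := a))) (ha haQ).ne
    filter_upwards [h4, hA] with x hx hx2
    have h5 : Tendsto (fun k => MQ δ (fun y => f y - g k y) (a, x)) atTop (𝓝 0) := by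
      have h3 := ENNReal.tendsto_atTop_zero_of_tsum_ne_top hx.ne
      have h4 := h3.ennrpow_const (1 / p)
      rw [ENNReal.zero_rpow_of_pos (by positivity)] at h4
      refine h4.congr fun k => ?_
      show (MQ δ (fun y => f y - g k y) (a, x) ^ p) ^ (1 / p) = _
      rw [← ENNReal.rpow_mul, mul_one_div, div_self hp0.ne', ENNReal.rpow_one]
    rw [tendsto_iff_edist_tendsto_0, ENNReal.tendsto_atTop_zero]
    intro ε hε
    have hε3 : 0 < ε / 3 := ENNReal.div_pos hε.ne' (by norm_num)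
    obtain ⟨k, hk1, hk2⟩ : ∃ k, MQ δ (fun y => f y - g k y) (a, x) ≤ ε / 3 ∧ ‖f x - g k x‖ₑ ≤ ε / 3 := by
      have e1 := (ENNReal.tendsto_atTop_zero.1 h5) _ hε3
      have e2 := (ENNReal.tendsto_atTop_zero.1 hx2) _ hε3
      obtain ⟨k1, hk1⟩ := e1
      obtain ⟨k2, hk2⟩ := e2
      exact ⟨max k1 k2, hk1 _ (le_max_left _ _), hk2 _ (le_max_right _ _)⟩
    have h6 := smooth_conv hδ hapos (hg1 k) (hg2 k) x
    rw [tendsto_iff_edist_tendsto_0, ENNReal.tendsto_atTop_zero] at h6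
    obtain ⟨R0, hR0⟩ := h6 _ hε3
    refine ⟨max R0 1, fun R hR => ?_⟩
    have hR1 : 0 < R := lt_of_lt_of_le one_pos ((le_max_right _ _).trans hR)
    have hsplit := S_add hδ hapos hR1 hf (hgi k) x
    calc edist (S δ a R f x) (f x) = ‖S δ a R f x - f x‖ₑ := edist_eq_enorm_sub _ _
      _ = ‖S δ a R (fun y => f y - g k y) x + (S δ a R (g k) x - g k x) + (-(f x - g k x))‖ₑ := by
          rw [hsplit]; congr 1; ring
      _ ≤ ‖S δ a R (fun y => f y - g k y) x‖ₑ + ‖S δ a R (g k) x - g k x‖ₑ + ‖-(f x - g k x)‖ₑ :=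
          (enorm_add_le _ _).trans (add_le_add (enorm_add_le _ _) le_rfl)
      _ ≤ ε / 3 + ε / 3 + ε / 3 := by
          refine add_le_add (add_le_add ((le_MQ hδ (hdi k) hapos x hR1).trans hk1) ?_) ?_
          · rw [← edist_eq_enorm_sub]
            exact hR0 R ((le_max_left _ _).trans hR)
          · rw [enorm_neg]; exact hk2
      _ = ε := ENNReal.add_thirds ε
  have hall := ae_all_iff.2 hbox
  filter_upwards [hall] with a ha hapos
  obtain ⟨m, hm, hma⟩ := exists_min hapos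
  obtain ⟨N1, hN1⟩ := exists_nat_gt (1 / m)
  obtain ⟨N2, hN2⟩ := exists_nat_gt (∑ j, a j)
  refine ha (max N1 N2) ⟨fun j => ?_, fun j => ?_⟩
  · show 1 / (((max N1 N2 : ℕ) : ℝ) + 1) ≤ a j
    refine le_trans ?_ (hma j)
    rw [div_le_iff₀ (by positivity)]
    have h1 : (N1 : ℝ) ≤ ((max N1 N2 : ℕ) : ℝ) := by exact_mod_cast le_max_left _ _
    have h2 : 1 < N1 * m := by rwa [div_lt_iff₀ hm] at hN1
    nlinarith
  · show a j ≤ ((max N1 N2 : ℕ) : ℝ) + 1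
    have h1 : (N2 : ℝ) ≤ ((max N1 N2 : ℕ) : ℝ) := by exact_mod_cast le_max_right _ _
    have h2 : a j ≤ ∑ i, a i := Finset.single_le_sum (fun i _ => (hapos i).le) (Finset.mem_univ j)
    linarith

end Pool.Agent.H380.BE
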