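import Pool.Agent.H695.BE.Weak
import Pool.Agent.H280.BE.Dyad
import Pool.Agent.H79.BE.Strong
import Pool.Agent.H350.BE.Dom
import Pool.Graph.R_pool_sql_team_seeded_f72693b1.W240.BE.Bas
import Pool.Graph.R_pool_sql_team_seeded_f72693b1.W345.BE.Basn
import Pool.Graph.R_pool_sql_team_seeded_f72693b1.W249.BE.Meas
import Pool.Graph.R_pool_sql_team_seeded_f72693b1.W125.BE.Yng
import Pool.Graph.R_pool_sql_team_seeded_f72693b1.W688.BE.L2
import Pool.Graph.R_pool_sql_team_seeded_f72693b1.W918.BE.Sq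
import Pool.Graph.R_pool_sql_team_seeded_f72693b1.W351.BE.Pl
import Pool.Graph.R_pool_sql_team_seeded_f72693b1.W688.BE.L4A
import Pool.Graph.R_pool_sql_team_seeded_f72693b1.W616.BE.L4B
import Pool.Graph.R_pool_sql_team_seeded_f72693b1.W311.BE.L4
import Pool.Graph.R_pool_sql_team_seeded_f72693b1.W290.BE.Iter
import Pool.Graph.R_pool_sql_team_seeded_f72693b1.W975.BE.Core
import Pool.Graph.R_pool_sql_team_seeded_f72693b1.W803.BE.DJ
import Pool.Graph.R_pool_sql_team_seeded_f72693b1.W52.BE.Low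
import Pool.Graph.R_pool_sql_team_seeded_f72693b1.W337.BE.Rep
import Pool.Graph.R_pool_sql_team_seeded_f72693b1.W337.BE.Main

/-!
# The maximal theorem, and the assembly of the parts
-/

set_option autoImplicit false

open MeasureTheory Set Metric
open scoped ENNReal

namespace Pool.Agent.H380.BE

open Pool.Agent.W203.BE

theorem t_HL : S_HL := by
  intro n p hp
  obtain ⟨C1, hC1, h1⟩ := Pool.Agent.H350.BE.t_DOM n
  obtain ⟨C2, hC2, h2⟩ := Pool.Agent.H79.BE.t_STRONG Pool.Agent.H695.BE.t_WEAK Pool.Agent.H280.BE.t_DYAD n p hp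
  refine ⟨C1 ^ p * C2, by positivity, fun f hf => ?_⟩
  calc ∫⁻ x, MM f x ^ p ≤ ∫⁻ x, ENNReal.ofReal C1 ^ p * HM f x ^ p := by
        refine lintegral_mono fun x => ?_
        rw [← ENNReal.mul_rpow_of_nonneg _ _ (by linarith : (0 : ℝ) ≤ p)]
        exact ENNReal.rpow_le_rpow (h1 f hf x) (by linarith)
    _ = ENNReal.ofReal C1 ^ p * ∫⁻ x, HM f x ^ p := by
        rw [lintegral_const_mul' _ _ (ENNReal.rpow_ne_top_of_nonneg (by linarith) ENNReal.ofReal_ne_top)]
    _ ≤ ENNReal.ofReal C1 ^ p * (ENNReal.ofReal C2 * ∫⁻ x, f x ^ p) := by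
        gcongr
        exact h2 f hf
    _ = ENNReal.ofReal (C1 ^ p * C2) * ∫⁻ x, f x ^ p := by
        rw [ENNReal.ofReal_mul (by positivity), ENNReal.ofReal_rpow_of_pos hC1, mul_assoc]

end Pool.Agent.H380.BE

namespace Pool.Agent.H380.BE

open Pool.Agent.W203.BE

theorem t_BASN : S_BASN := Pool.Agent.W345.BE.basn Pool.Agent.W240.BE.bas

theorem t_MAIN : S_MAIN := by
  have hb := Pool.Agent.W240.BE.bas
  have hn := t_BASN
  have hm := Pool.Agent.W249.BE.meas
  have hl2 := Pool.Agent.W688.BE.l2 hb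
  have hy := Pool.Agent.W125.BE.yng hb
  have h4a := Pool.Agent.W688.BE.l4a (Pool.Agent.W918.BE.sqT hb hl2) Pool.Agent.W351.BE.pl
  have h4 := Pool.Agent.W311.BE.l4 hb hy (Pool.Agent.W616.BE.l4b hb hy h4a)
  have hit := Pool.Agent.W290.BE.iter hb hn hm
  exact Pool.Agent.W337.BE.Mn.main hn hm (Pool.Agent.W975.BE.core hn hm hl2 h4 hit)
    (Pool.Agent.W803.BE.dj hb hn hm) t_HL (Pool.Agent.W52.BE.low hb) (Pool.Agent.W337.BE.rep hn hm)

end Pool.Agent.H380.BE
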