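import Pool.Agent.H380.BE.Sc

/-!
# The maximal estimate on all boxes of parameters
-/

set_option autoImplicit false

open MeasureTheory Set Metric Complex Filter Topology
open scoped ENNReal

namespace Pool.Agent.H380.BE

open Pool.Agent.W203.BE

/-- the `L^p` norm (to the power `p`) of the maximal function -/
noncomputable def Gf {n : ℕ} (δ p : ℝ) (f : (Fin n → ℝ) → ℂ) (a : Fin n → ℝ) : ℝ≥0∞ :=
  ∫⁻ x, (⨆ R : {R : ℝ // 0 < R}, ‖S δ a R f x‖ₑ) ^ p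

lemma Gf_scale {n : ℕ} (δ p : ℝ) (f : (Fin n → ℝ) → ℂ) (c : Fin n → ℝ) (hc : ∀ j, 0 < c j) (b : Fin n → ℝ) :
    Gf δ p f (dg (fun j => c j ^ 2) b) = ENNReal.ofReal (∏ j, c j) * Gf δ p (fun x => f (dg c x)) b := by
  unfold Gf
  rw [lint_dg' c hc]
  congr 1
  refine lintegral_congr fun x => ?_
  congr 1
  refine iSup_congr fun R => ?_
  rw [← S_scale δ c hc b R f x]
  rfl

lemma box_one {n : ℕ} {δ p C : ℝ} (hC : ∀ f : (Fin n → ℝ) → ℂ, Integrable f →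
    ∫⁻ a in Icc (fun _ : Fin n => (1 : ℝ)) (fun _ => 2), Gf δ p f a ≤ ENNReal.ofReal C * ∫⁻ x, ‖f x‖ₑ ^ p)
    (c : Fin n → ℝ) (hc : ∀ j, 0 < c j) (f : (Fin n → ℝ) → ℂ) (hf : Integrable f) :
    ∫⁻ a in Icc (fun j => c j ^ 2) (fun j => 2 * c j ^ 2), Gf δ p f a ≤
      ENNReal.ofReal ((∏ j, c j ^ 2) * C) * ∫⁻ x, ‖f x‖ₑ ^ p := by
  have hc2 : ∀ j, 0 < c j ^ 2 := fun j => pow_pos (hc j) 2
  have hp : 0 < ∏ j, c j := Finset.prod_pos fun j _ => hc j
  have hp2 : 0 < ∏ j, c j ^ 2 := Finset.prod_pos fun j _ => hc2 j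
  rw [← lintegral_indicator measurableSet_Icc, lint_dg' (fun j => c j ^ 2) hc2]
  have e : ∀ b : Fin n → ℝ, (Icc (fun j => c j ^ 2) (fun j => 2 * c j ^ 2)).indicator (Gf δ p f)
      (dg (fun j => c j ^ 2) b) = (Icc (fun _ : Fin n => (1 : ℝ)) (fun _ => 2)).indicator
        (fun b => ENNReal.ofReal (∏ j, c j) * Gf δ p (fun x => f (dg c x)) b) b := by
    intro b
    have hiff : dg (fun j => c j ^ 2) b ∈ Icc (fun j => c j ^ 2) (fun j => 2 * c j ^ 2) ↔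
        b ∈ Icc (fun _ : Fin n => (1 : ℝ)) (fun _ => 2) := by
      simp only [mem_Icc, Pi.le_def, dg]
      constructor
      · rintro ⟨h1, h2⟩
        refine ⟨fun j => ?_, fun j => ?_⟩
        · have := h1 j
          nlinarith [hc2 j]
        · have := h2 j
          nlinarith [hc2 j]
      · rintro ⟨h1, h2⟩
        refine ⟨fun j => ?_, fun j => ?_⟩
        · have := h1 j
          nlinarith [hc2 j]
        · have := h2 j
          nlinarith [hc2 j]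
    by_cases hb : b ∈ Icc (fun _ : Fin n => (1 : ℝ)) (fun _ => 2)
    · rw [indicator_of_mem (hiff.2 hb), indicator_of_mem hb, Gf_scale δ p f c hc b]
    · rw [indicator_of_notMem (fun h => hb (hiff.1 h)), indicator_of_notMem hb]
  rw [lintegral_congr e, lintegral_indicator measurableSet_Icc, lintegral_const_mul' _ _ ENNReal.ofReal_ne_top]
  calc ENNReal.ofReal (∏ j, c j ^ 2) * (ENNReal.ofReal (∏ j, c j) *
        ∫⁻ b in Icc (fun _ : Fin n => (1 : ℝ)) (fun _ => 2), Gf δ p (fun x => f (dg c x)) b)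
      ≤ ENNReal.ofReal (∏ j, c j ^ 2) * (ENNReal.ofReal (∏ j, c j) *
        (ENNReal.ofReal C * ∫⁻ x, ‖f (dg c x)‖ₑ ^ p)) := by
        gcongr
        exact hC _ (integrable_dg c hc hf)
    _ = ENNReal.ofReal (∏ j, c j ^ 2) * (ENNReal.ofReal C * (ENNReal.ofReal (∏ j, c j) *
        ∫⁻ x, ‖f (dg c x)‖ₑ ^ p)) := by ring
    _ = ENNReal.ofReal ((∏ j, c j ^ 2) * C) * ∫⁻ x, ‖f x‖ₑ ^ p := by
        rw [← lint_dg' c hc (fun x => ‖f x‖ₑ ^ p), ENNReal.ofReal_mul hp2.le, mul_assoc]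

/-- The maximal estimate, for all boxes. -/
theorem main_box (n : ℕ) (p δ : ℝ) (hp : 2 ≤ p) (hp4 : p ≤ 4) (hδ : 0 < δ) (α β : ℝ) (hα : 0 < α) :
    ∃ C : ℝ, 0 < C ∧ ∀ f : (Fin n → ℝ) → ℂ, Integrable f →
      ∫⁻ a in Icc (fun _ : Fin n => α) (fun _ => β), Gf δ p f a ≤ ENNReal.ofReal C * ∫⁻ x, ‖f x‖ₑ ^ p := by
  obtain ⟨C, hC, h⟩ := t_MAIN n p δ hp hp4 hδ
  obtain ⟨N, hN⟩ := pow_unbounded_of_one_lt (β / α) (by norm_num : (1 : ℝ) < 2)
  set cc : (Fin n → Fin (N + 1)) → Fin n → ℝ := fun k j => Real.sqrt (α * 2 ^ ((k j : ℕ))) with hcc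
  have hcp : ∀ k j, 0 < cc k j := fun k j => Real.sqrt_pos.2 (by positivity)
  have hc2 : ∀ k j, cc k j ^ 2 = α * 2 ^ ((k j : ℕ)) := fun k j => Real.sq_sqrt (by positivity)
  have hcov : Icc (fun _ : Fin n => α) (fun _ => β) ⊆ ⋃ k : Fin n → Fin (N + 1),
      Icc (fun j => cc k j ^ 2) (fun j => 2 * cc k j ^ 2) := by
    rintro a ⟨h1, h2⟩
    have hk : ∀ j, ∃ k : Fin (N + 1), α * 2 ^ (k : ℕ) ≤ a j ∧ a j ≤ 2 * (α * 2 ^ (k : ℕ)) := by
      intro j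
      have ha1 : α ≤ a j := h1 j
      have ha2 : a j ≤ β := h2 j
      obtain ⟨m, hm1, hm2⟩ := exists_nat_pow_near (x := a j / α) (y := 2)
        (by rw [le_div_iff₀ hα]; linarith) (by norm_num)
      rw [le_div_iff₀ hα] at hm1
      rw [div_lt_iff₀ hα] at hm2
      have hmN : m < N + 1 := by
        by_contra hcon
        push Not at hcon
        have h3 : (2 : ℝ) ^ N ≤ 2 ^ m := pow_le_pow_right₀ (by norm_num) (by omega)
        have h4 : β < 2 ^ N * α := by rwa [div_lt_iff₀ hα] at hN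
        nlinarith
      refine ⟨⟨m, hmN⟩, ?_, ?_⟩
      · simp only; linarith
      · simp only
        rw [pow_succ] at hm2
        linarith
    choose k hk1 hk2 using hk
    refine mem_iUnion.2 ⟨k, fun j => ?_, fun j => ?_⟩
    · show cc k j ^ 2 ≤ a j
      rw [hc2]; exact hk1 j
    · show a j ≤ 2 * cc k j ^ 2
      rw [hc2]; exact hk2 j
  refine ⟨(∑ k : Fin n → Fin (N + 1), (∏ j, cc k j ^ 2) * C) + 1, ?_, fun f hf => ?_⟩
  · have : 0 ≤ ∑ k : Fin n → Fin (N + 1), (∏ j, cc k j ^ 2) * C :=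
      Finset.sum_nonneg fun k _ => mul_nonneg (Finset.prod_nonneg fun j _ => (pow_pos (hcp k j) 2).le) hC.le
    linarith
  calc ∫⁻ a in Icc (fun _ : Fin n => α) (fun _ => β), Gf δ p f a
      ≤ ∫⁻ a in ⋃ k : Fin n → Fin (N + 1), Icc (fun j => cc k j ^ 2) (fun j => 2 * cc k j ^ 2), Gf δ p f a :=
        lintegral_mono_set hcov
    _ ≤ ∑' k : Fin n → Fin (N + 1), ∫⁻ a in Icc (fun j => cc k j ^ 2) (fun j => 2 * cc k j ^ 2), Gf δ p f a :=
        lintegral_iUnion_le _ _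
    _ ≤ ∑' k : Fin n → Fin (N + 1), ENNReal.ofReal ((∏ j, cc k j ^ 2) * C) * ∫⁻ x, ‖f x‖ₑ ^ p :=
        ENNReal.tsum_le_tsum fun k => box_one h (cc k) (hcp k) f hf
    _ = ENNReal.ofReal (∑ k : Fin n → Fin (N + 1), (∏ j, cc k j ^ 2) * C) * ∫⁻ x, ‖f x‖ₑ ^ p := by
        rw [tsum_fintype, ← Finset.sum_mul, ENNReal.ofReal_sum_of_nonneg]
        intro k _
        exact mul_nonneg (Finset.prod_nonneg fun j _ => (pow_pos (hcp k j) 2).le) hC.le
    _ ≤ _ := by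
        gcongr
        linarith

end Pool.Agent.H380.BE
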