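import Pool.Graph.R_pool_sql_team_seeded_f72693b1.W203.BE.Stms

/-!
# The maximal function over cubes: statements
-/

set_option autoImplicit false

open MeasureTheory Set Metric
open scoped ENNReal

namespace Pool.Agent.H380.BE

open Pool.Agent.W203.BE

/-- maximal function over cubes (balls of the sup norm) -/
noncomputable def HM {n : ℕ} (f : (Fin n → ℝ) → ℝ≥0∞) (x : Fin n → ℝ) : ℝ≥0∞ :=
  ⨆ r : {r : ℝ // 0 < r}, (∫⁻ y in closedBall x r, f y) / ENNReal.ofReal (r.1 ^ n)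

/-- weak type inequality -/
def S_WEAK : Prop := ∀ (n : ℕ) (f : (Fin n → ℝ) → ℝ≥0∞) (l : ℝ≥0∞),
  l * volume {x | l < HM f x} ≤ 10 ^ n * ∫⁻ y, f y

/-- strong type inequality -/
def S_STRONG : Prop := ∀ (n : ℕ) (p : ℝ), 1 < p → ∃ C : ℝ, 0 < C ∧
  ∀ f : (Fin n → ℝ) → ℝ≥0∞, Measurable f →
    ∫⁻ x, HM f x ^ p ≤ ENNReal.ofReal C * ∫⁻ x, f x ^ p

/-- the Gaussian maximal function is dominated by the maximal function over cubes -/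
def S_DOM : Prop := ∀ n : ℕ, ∃ C : ℝ, 0 < C ∧
  ∀ f : (Fin n → ℝ) → ℝ≥0∞, Measurable f → ∀ x, MM f x ≤ ENNReal.ofReal C * HM f x

/-- summation over the dyadic levels -/
def S_DYAD : Prop := ∀ (p : ℝ), 1 < p → ∀ n : ℕ, ∃ C : ℝ, 0 < C ∧
  (∀ y : ℝ≥0∞, y ^ p ≤ ∑' k : ℤ, ((2 : ℝ≥0∞) ^ (k + 1)) ^ p * ({z : ℝ≥0∞ | (2 : ℝ≥0∞) ^ k < z}.indicator 1 y)) ∧
  (∀ y : ℝ≥0∞, ∑' k : ℤ, ((2 : ℝ≥0∞) ^ (k + 1)) ^ p * ((2 : ℝ≥0∞) ^ (1 - k) *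
      {z : ℝ≥0∞ | (2 : ℝ≥0∞) ^ (k - n - 1) < z}.indicator id y) ≤ ENNReal.ofReal C * y ^ p)

end Pool.Agent.H380.BE
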