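import Pool.Agent.H380.BE.Box

/-!
# Convergence of the means for smooth functions, measurability, continuity in the radius
-/

set_option autoImplicit false

open MeasureTheory Set Metric Complex Filter Topology
open scoped ENNReal FourierTransform RealInnerProductSpace ContDiff

namespace Pool.Agent.H380.BE

open Pool.Agent.W203.BE

/-- Fourier transform -/
noncomputable def ft {n : ℕ} (f : (Fin n → ℝ) → ℂ) (ξ : Fin n → ℝ) : ℂ :=
  ∫ y : Fin n → ℝ, cexp (-(2 * (Real.pi : ℂ) * I * ((∑ j, y j * ξ j : ℝ) : ℂ))) * f y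

/-- the symbol -/
noncomputable def mu {n : ℕ} (δ : ℝ) (a : Fin n → ℝ) (R : ℝ) (ξ : Fin n → ℝ) : ℝ :=
  (max (1 - (∑ j, a j * ξ j ^ 2) / R ^ 2) 0) ^ δ

lemma S_eq {n : ℕ} (δ : ℝ) (a : Fin n → ℝ) (R : ℝ) (f : (Fin n → ℝ) → ℂ) (x : Fin n → ℝ) :
    S δ a R f x = ∫ ξ, (mu δ a R ξ : ℂ) * ft f ξ * cexp (2 * (Real.pi : ℂ) * I * ((∑ j, x j * ξ j : ℝ) : ℂ)) := rfl

lemma norm_e {n : ℕ} (x ξ : Fin n → ℝ) : ‖cexp (2 * (Real.pi : ℂ) * I * ((∑ j, x j * ξ j : ℝ) : ℂ))‖ = 1 := by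
  rw [show (2 * (Real.pi : ℂ) * I * ((∑ j, x j * ξ j : ℝ) : ℂ)) = ((2 * Real.pi * (∑ j, x j * ξ j) : ℝ) : ℂ) * I by
    push_cast; ring]
  exact Complex.norm_exp_ofReal_mul_I _

lemma norm_e' {n : ℕ} (x ξ : Fin n → ℝ) : ‖cexp (-(2 * (Real.pi : ℂ) * I * ((∑ j, x j * ξ j : ℝ) : ℂ)))‖ = 1 := by
  rw [Complex.exp_neg, norm_inv, norm_e, inv_one]

lemma ft_le {n : ℕ} (f : (Fin n → ℝ) → ℂ) (ξ : Fin n → ℝ) : ‖ft f ξ‖ ≤ ∫ y, ‖f y‖ := by
  unfold ft
  refine (norm_integral_le_integral_norm _).trans (le_of_eq ?_)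
  refine integral_congr_ae (Eventually.of_forall fun y => ?_)
  simp only [norm_mul, norm_e', one_mul]

lemma ft_cont {n : ℕ} {f : (Fin n → ℝ) → ℂ} (hf : Integrable f) : Continuous (ft f) := by
  unfold ft
  refine continuous_of_dominated (bound := fun y => ‖f y‖) ?_ ?_ hf.norm ?_
  · intro ξ
    refine AEStronglyMeasurable.mul ?_ hf.1
    exact (by fun_prop : Continuous fun y : Fin n → ℝ =>
      cexp (-(2 * (Real.pi : ℂ) * I * ((∑ j, y j * ξ j : ℝ) : ℂ)))).aestronglyMeasurable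
  · intro ξ
    exact Eventually.of_forall fun y => by rw [norm_mul, norm_e', one_mul]
  · exact Eventually.of_forall fun y => by fun_prop

lemma mu_nonneg {n : ℕ} (δ : ℝ) (a : Fin n → ℝ) (R : ℝ) (ξ : Fin n → ℝ) : 0 ≤ mu δ a R ξ :=
  Real.rpow_nonneg (le_max_right _ _) _

lemma q_nonneg {n : ℕ} {a : Fin n → ℝ} (ha : ∀ j, 0 < a j) (ξ : Fin n → ℝ) : 0 ≤ ∑ j, a j * ξ j ^ 2 :=
  Finset.sum_nonneg fun j _ => mul_nonneg (ha j).le (sq_nonneg _)

lemma mu_le {n : ℕ} {δ : ℝ} (hδ : 0 < δ) {a : Fin n → ℝ} (ha : ∀ j, 0 < a j) (R : ℝ) (ξ : Fin n → ℝ) :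
    mu δ a R ξ ≤ 1 := by
  refine Real.rpow_le_one (le_max_right _ _) ?_ hδ.le
  refine max_le ?_ zero_le_one
  have : 0 ≤ (∑ j, a j * ξ j ^ 2) / R ^ 2 := div_nonneg (q_nonneg ha ξ) (sq_nonneg _)
  linarith

lemma mu_cont {n : ℕ} {δ : ℝ} (hδ : 0 < δ) (R : ℝ) :
    Continuous fun p : ((Fin n → ℝ) × (Fin n → ℝ)) × (Fin n → ℝ) => mu δ p.1.1 R p.2 := by
  unfold mu
  refine Continuous.rpow_const (by fun_prop) fun _ => Or.inr hδ.le

/-- the support of the symbol is bounded -/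
lemma mu_zero {n : ℕ} {δ : ℝ} (hδ : 0 < δ) {a : Fin n → ℝ} {m : ℝ} (hm : 0 < m) (ha : ∀ j, m ≤ a j) {R R' : ℝ}
    (hR : 0 < R) (hRR : R ≤ R') {ξ : Fin n → ℝ} (hξ : ξ ∉ closedBall (0 : Fin n → ℝ) (R' / Real.sqrt m)) :
    mu δ a R ξ = 0 := by
  unfold mu
  rw [mem_closedBall, dist_zero_right, not_le] at hξ
  have hsm : 0 < Real.sqrt m := Real.sqrt_pos.2 hm
  have hR' : 0 < R' := hR.trans_le hRR
  have h0 : 0 ≤ R' / Real.sqrt m := by positivity
  obtain ⟨j, hj⟩ : ∃ j, R' / Real.sqrt m < ‖ξ j‖ := by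
    by_contra hcon
    push Not at hcon
    exact absurd ((pi_norm_le_iff_of_nonneg h0).2 hcon) (not_le.2 hξ)
  have h1 : R' ^ 2 < m * ξ j ^ 2 := by
    have h2 : R' < ‖ξ j‖ * Real.sqrt m := by rwa [div_lt_iff₀ hsm] at hj
    have h3 : R' ^ 2 < (‖ξ j‖ * Real.sqrt m) ^ 2 := by
      have : 0 ≤ R' := by linarith
      nlinarith
    rw [mul_pow, Real.sq_sqrt hm.le, Real.norm_eq_abs, sq_abs] at h3
    linarith
  have h2 : m * ξ j ^ 2 ≤ ∑ i, a i * ξ i ^ 2 := by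
    refine (mul_le_mul_of_nonneg_right (ha j) (sq_nonneg _)).trans ?_
    exact Finset.single_le_sum (f := fun i => a i * ξ i ^ 2)
      (fun i _ => mul_nonneg (hm.le.trans (ha i)) (sq_nonneg _)) (Finset.mem_univ j)
  have h3 : R ^ 2 < ∑ i, a i * ξ i ^ 2 := by nlinarith
  have h4 : 1 - (∑ i, a i * ξ i ^ 2) / R ^ 2 ≤ 0 := by
    have : 1 ≤ (∑ i, a i * ξ i ^ 2) / R ^ 2 := by
      rw [le_div_iff₀ (by positivity)]; linarith
    linarith
  rw [max_eq_right h4, Real.zero_rpow hδ.ne']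

lemma exists_min {n : ℕ} {a : Fin n → ℝ} (ha : ∀ j, 0 < a j) : ∃ m : ℝ, 0 < m ∧ ∀ j, m ≤ a j := by
  rcases isEmpty_or_nonempty (Fin n) with h | h
  · exact ⟨1, one_pos, fun j => (h.false j).elim⟩
  · obtain ⟨i, hi⟩ := Finite.exists_min a
    exact ⟨a i, ha i, hi⟩

/-- the integrand of `S` -/
noncomputable def ig {n : ℕ} (δ : ℝ) (a : Fin n → ℝ) (R : ℝ) (f : (Fin n → ℝ) → ℂ) (x ξ : Fin n → ℝ) : ℂ :=
  (mu δ a R ξ : ℂ) * ft f ξ * cexp (2 * (Real.pi : ℂ) * I * ((∑ j, x j * ξ j : ℝ) : ℂ))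

lemma ig_norm {n : ℕ} (δ : ℝ) (a : Fin n → ℝ) (R : ℝ) (f : (Fin n → ℝ) → ℂ) (x ξ : Fin n → ℝ) :
    ‖ig δ a R f x ξ‖ = mu δ a R ξ * ‖ft f ξ‖ := by
  unfold ig
  rw [norm_mul, norm_mul, norm_e, mul_one, Complex.norm_real, Real.norm_of_nonneg (mu_nonneg _ _ _ _)]

lemma ig_le {n : ℕ} {δ : ℝ} (hδ : 0 < δ) {a : Fin n → ℝ} {m : ℝ} (hm : 0 < m) (ha : ∀ j, m ≤ a j) {R R' : ℝ}
    (hR : 0 < R) (hRR : R ≤ R') (f : (Fin n → ℝ) → ℂ) (x ξ : Fin n → ℝ) :
    ‖ig δ a R f x ξ‖ ≤ (closedBall (0 : Fin n → ℝ) (R' / Real.sqrt m)).indicator (fun _ => ∫ y, ‖f y‖) ξ := by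
  rw [ig_norm]
  have hpos : ∀ j, 0 < a j := fun j => hm.trans_le (ha j)
  by_cases hξ : ξ ∈ closedBall (0 : Fin n → ℝ) (R' / Real.sqrt m)
  · rw [indicator_of_mem hξ]
    calc mu δ a R ξ * ‖ft f ξ‖ ≤ 1 * ∫ y, ‖f y‖ :=
          mul_le_mul (mu_le hδ hpos R ξ) (ft_le f ξ) (norm_nonneg _) zero_le_one
      _ = _ := one_mul _
  · rw [indicator_of_notMem hξ, mu_zero hδ hm ha hR hRR hξ, zero_mul]

lemma ig_cont {n : ℕ} {δ : ℝ} (hδ : 0 < δ) (a : Fin n → ℝ) (R : ℝ) {f : (Fin n → ℝ) → ℂ} (hf : Integrable f)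
    (x : Fin n → ℝ) : Continuous (ig δ a R f x) := by
  unfold ig
  have h1 : Continuous fun ξ : Fin n → ℝ => mu δ a R ξ := by
    unfold mu
    exact Continuous.rpow_const (by fun_prop) fun _ => Or.inr hδ.le
  have h2 := ft_cont hf
  fun_prop

lemma bd_int {n : ℕ} (r B : ℝ) : Integrable ((closedBall (0 : Fin n → ℝ) r).indicator (fun _ => B)) := by
  rw [integrable_indicator_iff measurableSet_closedBall]
  exact integrableOn_const measure_closedBall_lt_top.ne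

lemma ig_int {n : ℕ} {δ : ℝ} (hδ : 0 < δ) {a : Fin n → ℝ} (ha : ∀ j, 0 < a j) {R : ℝ} (hR : 0 < R)
    {f : (Fin n → ℝ) → ℂ} (hf : Integrable f) (x : Fin n → ℝ) : Integrable (ig δ a R f x) := by
  obtain ⟨m, hm, hma⟩ := exists_min ha
  refine (bd_int (n := n) (R / Real.sqrt m) (∫ y, ‖f y‖)).mono' (ig_cont hδ a R hf x).aestronglyMeasurable ?_
  exact Eventually.of_forall fun ξ => ig_le hδ hm hma hR le_rfl f x ξ

lemma S_add {n : ℕ} {δ : ℝ} (hδ : 0 < δ) {a : Fin n → ℝ} (ha : ∀ j, 0 < a j) {R : ℝ} (hR : 0 < R)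
    {f g : (Fin n → ℝ) → ℂ} (hf : Integrable f) (hg : Integrable g) (x : Fin n → ℝ) :
    S δ a R f x = S δ a R (fun y => f y - g y) x + S δ a R g x := by
  have e : ∀ ξ, ft f ξ = ft (fun y => f y - g y) ξ + ft g ξ := by
    intro ξ
    unfold ft
    rw [← integral_add]
    · refine integral_congr_ae (Eventually.of_forall fun y => ?_)
      simp only
      ring
    · refine Integrable.bdd_mul (c := 1) (hf.sub hg) ?_ (Eventually.of_forall fun y => (norm_e' y ξ).le)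
      exact (by fun_prop : Continuous fun y : Fin n → ℝ =>
        cexp (-(2 * (Real.pi : ℂ) * I * ((∑ j, y j * ξ j : ℝ) : ℂ)))).aestronglyMeasurable
    · refine Integrable.bdd_mul (c := 1) hg ?_ (Eventually.of_forall fun y => (norm_e' y ξ).le)
      exact (by fun_prop : Continuous fun y : Fin n → ℝ =>
        cexp (-(2 * (Real.pi : ℂ) * I * ((∑ j, y j * ξ j : ℝ) : ℂ)))).aestronglyMeasurable
  have h1 := ig_int hδ ha hR (hf.sub hg) x
  have h2 := ig_int hδ ha hR hg x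
  have h3 : S δ a R f x = ∫ ξ, (ig δ a R (f - g) x ξ + ig δ a R g x ξ) := by
    rw [S_eq]
    refine integral_congr_ae (Eventually.of_forall fun ξ => ?_)
    simp only [ig]
    rw [e ξ]
    have : ft (f - g) ξ = ft (fun y => f y - g y) ξ := rfl
    rw [this]
    ring
  rw [h3, integral_add h1 h2]
  rfl

/-- joint measurability for a fixed radius -/
lemma S_meas {n : ℕ} {δ : ℝ} (hδ : 0 < δ) (R : ℝ) {f : (Fin n → ℝ) → ℂ} (hf : Integrable f) :
    Measurable fun p : (Fin n → ℝ) × (Fin n → ℝ) => S δ p.1 R f p.2 := by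
  have h1 := mu_cont (n := n) hδ R
  have h2 := ft_cont hf
  have h : Continuous fun q : ((Fin n → ℝ) × (Fin n → ℝ)) × (Fin n → ℝ) => ig δ q.1.1 R f q.1.2 q.2 := by
    unfold ig
    fun_prop
  exact (h.stronglyMeasurable.integral_prod_right').measurable

/-- continuity in the radius -/
lemma S_contR {n : ℕ} {δ : ℝ} (hδ : 0 < δ) {a : Fin n → ℝ} (ha : ∀ j, 0 < a j) {R : ℝ} (hR : 0 < R)
    {f : (Fin n → ℝ) → ℂ} (hf : Integrable f) (x : Fin n → ℝ) : ContinuousAt (fun R => S δ a R f x) R := by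
  obtain ⟨m, hm, hma⟩ := exists_min ha
  have : (fun R => S δ a R f x) = fun R => ∫ ξ, ig δ a R f x ξ := rfl
  rw [this]
  have hnh : ∀ᶠ R' in 𝓝 R, 0 < R' ∧ R' ≤ 2 * R := by
    filter_upwards [lt_mem_nhds hR, gt_mem_nhds (by linarith : R < 2 * R)] with R' h1 h2
    exact ⟨h1, h2.le⟩
  refine continuousAt_of_dominated (bound := (closedBall (0 : Fin n → ℝ) (2 * R / Real.sqrt m)).indicator
    (fun _ => ∫ y, ‖f y‖)) ?_ ?_ (bd_int _ _) ?_
  · exact Eventually.of_forall fun R' => (ig_cont hδ a R' hf x).aestronglyMeasurable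
  · filter_upwards [hnh] with R' h'
    exact Eventually.of_forall fun ξ => ig_le hδ hm hma h'.1 h'.2 f x ξ
  · refine Eventually.of_forall fun ξ => ?_
    unfold ig mu
    have h1 : ContinuousAt (fun R' : ℝ => (max (1 - (∑ j, a j * ξ j ^ 2) / R' ^ 2) 0) ^ δ) R := by
      refine ContinuousAt.rpow_const ?_ (Or.inr hδ.le)
      have h0 : ContinuousAt (fun R' : ℝ => 1 - (∑ j, a j * ξ j ^ 2) / R' ^ 2) R :=
        continuousAt_const.sub (ContinuousAt.div continuousAt_const (by fun_prop) (by positivity))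
      exact Filter.Tendsto.max h0 tendsto_const_nhds
    have h2 : ContinuousAt (fun R' : ℝ => (((max (1 - (∑ j, a j * ξ j ^ 2) / R' ^ 2) 0) ^ δ : ℝ) : ℂ)) R :=
      Complex.continuous_ofReal.continuousAt.comp h1
    exact (h2.mul continuousAt_const).mul continuousAt_const

/-- Fourier transform and inversion for smooth functions with compact support -/
lemma smooth_inv {n : ℕ} {g : (Fin n → ℝ) → ℂ} (h1 : HasCompactSupport g) (h2 : ContDiff ℝ ∞ g) :
    Integrable (ft g) ∧ ∀ x, ∫ ξ, ft g ξ * cexp (2 * (Real.pi : ℂ) * I * ((∑ j, x j * ξ j : ℝ) : ℂ)) = g x := by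
  set L := PiLp.continuousLinearEquiv 2 ℝ (fun _ : Fin n => ℝ) with hL
  set G : EuclideanSpace ℝ (Fin n) → ℂ := fun v => g (L v) with hG
  have hG1 : HasCompactSupport G := h1.comp_homeomorph L.toHomeomorph
  have hG2 : ContDiff ℝ ∞ G := h2.comp L.contDiff
  set Φ := hG1.toSchwartzMap hG2 with hΦ
  have hΦG : (Φ : EuclideanSpace ℝ (Fin n) → ℂ) = G := by
    funext v; rfl
  have hGi : Integrable G := by rw [← hΦG]; exact Φ.integrable
  have hFi : Integrable (𝓕 G) := by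
    have := (𝓕 Φ).integrable (μ := volume)
    rw [SchwartzMap.fourier_coe, hΦG] at this
    exact this
  have mp := PiLp.volume_preserving_toLp (Fin n)
  have me := (MeasurableEquiv.toLp 2 (Fin n → ℝ)).measurableEmbedding
  have hft : ∀ ξ : Fin n → ℝ, 𝓕 G (WithLp.toLp 2 ξ) = ft g ξ := by
    intro ξ
    rw [Real.fourier_eq', ← mp.integral_comp me]
    unfold ft
    refine integral_congr_ae (Eventually.of_forall fun y => ?_)
    simp only [smul_eq_mul, PiLp.inner_apply, RCLike.inner_apply, conj_trivial]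
    have e1 : G (WithLp.toLp 2 y) = g y := rfl
    have e2 : (∑ j, ξ j * y j) = ∑ j, y j * ξ j := Finset.sum_congr rfl fun j _ => mul_comm _ _
    rw [e1, e2]
    congr 2
    push_cast
    ring
  have hint : Integrable (ft g) := by
    have h := (mp.integrable_comp_emb me (g := 𝓕 G)).2 hFi
    refine h.congr (Eventually.of_forall fun ξ => ?_)
    exact hft ξ
  refine ⟨hint, fun x => ?_⟩
  have hinv := congrFun (hG2.continuous.fourierInv_fourier_eq hGi hFi) (WithLp.toLp 2 x)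
  rw [Real.fourierInv_eq', ← mp.integral_comp me] at hinv
  have e1 : G (WithLp.toLp 2 x) = g x := rfl
  rw [e1] at hinv
  rw [← hinv]
  refine integral_congr_ae (Eventually.of_forall fun ξ => ?_)
  simp only [smul_eq_mul, PiLp.inner_apply, RCLike.inner_apply, conj_trivial, hft ξ]
  rw [mul_comm]
  congr 2
  push_cast
  ring

/-- convergence for smooth functions -/
lemma smooth_conv {n : ℕ} {δ : ℝ} (hδ : 0 < δ) {a : Fin n → ℝ} (ha : ∀ j, 0 < a j)
    {g : (Fin n → ℝ) → ℂ} (h1 : HasCompactSupport g) (h2 : ContDiff ℝ ∞ g) (x : Fin n → ℝ) :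
    Tendsto (fun R => S δ a R g x) atTop (𝓝 (g x)) := by
  obtain ⟨hi, hx⟩ := smooth_inv h1 h2
  have hgi : Integrable g := h2.continuous.integrable_of_hasCompactSupport h1
  rw [← hx x]
  have : (fun R => S δ a R g x) = fun R => ∫ ξ, ig δ a R g x ξ := rfl
  rw [this]
  refine tendsto_integral_filter_of_dominated_convergence (fun ξ => ‖ft g ξ‖) ?_ ?_ hi.norm ?_
  · exact Eventually.of_forall fun R => (ig_cont hδ a R hgi x).aestronglyMeasurable
  · refine Eventually.of_forall fun R => Eventually.of_forall fun ξ => ?_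
    rw [ig_norm]
    calc mu δ a R ξ * ‖ft g ξ‖ ≤ 1 * ‖ft g ξ‖ := mul_le_mul_of_nonneg_right (mu_le hδ ha R ξ) (norm_nonneg _)
      _ = _ := one_mul _
  · refine Eventually.of_forall fun ξ => ?_
    unfold ig mu
    have h3 : Tendsto (fun R : ℝ => (∑ j, a j * ξ j ^ 2) / R ^ 2) atTop (𝓝 0) :=
      tendsto_const_nhds.div_atTop (tendsto_pow_atTop two_ne_zero)
    have h4 : Tendsto (fun R : ℝ => max (1 - (∑ j, a j * ξ j ^ 2) / R ^ 2) 0) atTop (𝓝 (max (1 - 0) 0)) :=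
      (tendsto_const_nhds.sub h3).max tendsto_const_nhds
    have h5 : Tendsto (fun R : ℝ => (max (1 - (∑ j, a j * ξ j ^ 2) / R ^ 2) 0) ^ δ) atTop (𝓝 1) := by
      have := h4.rpow_const (p := δ) (Or.inr hδ.le)
      simpa using this
    have h6 : Tendsto (fun R : ℝ => (((max (1 - (∑ j, a j * ξ j ^ 2) / R ^ 2) 0) ^ δ : ℝ) : ℂ)) atTop (𝓝 1) := by
      have := (Complex.continuous_ofReal.tendsto 1).comp h5
      rw [Complex.ofReal_one] at this
      exact this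
    have h7 := (h6.mul_const (ft g ξ)).mul_const (cexp (2 * (Real.pi : ℂ) * I * ((∑ j, x j * ξ j : ℝ) : ℂ)))
    rw [one_mul] at h7
    exact h7

end Pool.Agent.H380.BE
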