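import Pool.Agent.H380.BE.Ae

/-!
# One axis of the ellipsoid is fixed
-/

set_option autoImplicit false

open MeasureTheory Set Metric Complex Filter Topology
open scoped ENNReal ContDiff

namespace Pool.Agent.H380.BE

open Pool.Agent.W203.BE

/-- homogeneity -/
lemma S_hom {n : ℕ} (δ : ℝ) {s : ℝ} (hs : 0 < s) (a : Fin n → ℝ) (R : ℝ) (f : (Fin n → ℝ) → ℂ)
    (x : Fin n → ℝ) : S δ (fun j => s * a j) R f x = S δ a (R / Real.sqrt s) f x := by
  unfold S
  refine integral_congr_ae (Eventually.of_forall fun ξ => ?_)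
  have h : (∑ j, s * a j * ξ j ^ 2) / R ^ 2 = (∑ j, a j * ξ j ^ 2) / (R / Real.sqrt s) ^ 2 := by
    rw [div_pow, Real.sq_sqrt hs.le, div_div_eq_mul_div]
    congr 1
    rw [Finset.sum_mul]
    refine Finset.sum_congr rfl fun j _ => by ring
  simp only
  rw [h]

lemma Gf_hom {n : ℕ} (δ p : ℝ) {s : ℝ} (hs : 0 < s) (f : (Fin n → ℝ) → ℂ) (a : Fin n → ℝ) :
    Gf δ p f (fun j => s * a j) = Gf δ p f a := by
  have hq : 0 < Real.sqrt s := Real.sqrt_pos.2 hs
  unfold Gf
  refine lintegral_congr fun x => ?_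
  congr 1
  apply le_antisymm
  · refine iSup_le fun R => ?_
    rw [S_hom δ hs]
    exact le_iSup (fun R : {R : ℝ // 0 < R} => ‖S δ a R f x‖ₑ) ⟨R.1 / Real.sqrt s, div_pos R.2 hq⟩
  · refine iSup_le fun R => ?_
    have h := S_hom δ hs a (R.1 * Real.sqrt s) f x
    rw [mul_div_assoc, div_self hq.ne', mul_one] at h
    rw [← h]
    exact le_iSup (fun R : {R : ℝ // 0 < R} => ‖S δ (fun j => s * a j) R f x‖ₑ)
      ⟨R.1 * Real.sqrt s, mul_pos R.2 hq⟩

/-- the measurable form -/
noncomputable def GQ {n : ℕ} (δ p : ℝ) (f : (Fin n → ℝ) → ℂ) (a : Fin n → ℝ) : ℝ≥0∞ :=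
  ∫⁻ x, MQ δ f (a, x) ^ p

lemma GQ_meas {n : ℕ} {δ p : ℝ} (hδ : 0 < δ) {f : (Fin n → ℝ) → ℂ} (hf : Integrable f) :
    Measurable (GQ δ p f) :=
  ((MQ_meas hδ hf).pow_const p).lintegral_prod_right'

lemma GQ_eq {n : ℕ} {δ p : ℝ} (hδ : 0 < δ) {f : (Fin n → ℝ) → ℂ} (hf : Integrable f)
    {a : Fin n → ℝ} (ha : ∀ j, 0 < a j) : GQ δ p f a = Gf δ p f a := by
  unfold GQ Gf
  refine lintegral_congr fun x => ?_
  congr 1
  exact le_antisymm (MQ_le δ f a x) (iSup_le fun R => le_MQ hδ hf ha x R.2)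

lemma symm_cons {m : ℕ} (q : ℝ × (Fin m → ℝ)) :
    (MeasurableEquiv.piFinSuccAbove (fun _ : Fin (m + 1) => ℝ) 0).symm q =
      (Fin.cons q.1 q.2 : Fin (m + 1) → ℝ) := by
  funext j
  refine Fin.cases ?_ (fun i => ?_) j <;> rfl

lemma mp_cons (m : ℕ) : MeasurePreserving (fun q : ℝ × (Fin m → ℝ) =>
    (Fin.cons q.1 q.2 : Fin (m + 1) → ℝ)) volume volume := by
  have h := (volume_preserving_piFinSuccAbove (fun _ : Fin (m + 1) => ℝ) 0).symm
  have e : (fun q : ℝ × (Fin m → ℝ) => (Fin.cons q.1 q.2 : Fin (m + 1) → ℝ)) =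
      (MeasurableEquiv.piFinSuccAbove (fun _ : Fin (m + 1) => ℝ) 0).symm :=
    funext fun q => (symm_cons q).symm
  rw [e]
  exact h

/-- splitting off the first variable -/
lemma lint_cons {m : ℕ} (F : (Fin (m + 1) → ℝ) → ℝ≥0∞) (hF : Measurable F) :
    ∫⁻ a, F a = ∫⁻ s : ℝ, ∫⁻ b : Fin m → ℝ, F (Fin.cons s b) := by
  rw [← (mp_cons m).lintegral_comp hF, Measure.volume_eq_prod]
  exact lintegral_prod _ ((hF.comp (mp_cons m).measurable).aemeasurable)

lemma cons_smul {m : ℕ} (s : ℝ) (b : Fin m → ℝ) :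
    (Fin.cons s (dg (fun _ => s) b) : Fin (m + 1) → ℝ) =
      fun j => s * (Fin.cons 1 b : Fin (m + 1) → ℝ) j := by
  funext j
  refine Fin.cases ?_ (fun i => ?_) j
  · simp
  · simp [dg]

/-- **The maximal theorem with one axis fixed.** -/
theorem main_one (m : ℕ) (p δ : ℝ) (hp : 2 ≤ p) (hp4 : p ≤ 4) (hδ : 0 < δ) (α β : ℝ) (hα : 0 < α) :
    ∃ C : ℝ, 0 < C ∧ ∀ f : (Fin (m + 1) → ℝ) → ℂ, Integrable f →
      ∫⁻ b in Icc (fun _ : Fin m => α) (fun _ => β), Gf δ p f (Fin.cons 1 b) ≤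
        ENNReal.ofReal C * ∫⁻ x, ‖f x‖ₑ ^ p := by
  have hα' : 0 < min α 1 := lt_min hα one_pos
  obtain ⟨C, hC, h⟩ := main_box (m + 1) p δ hp hp4 hδ (min α 1) (2 * max β 1) hα'
  refine ⟨C, hC, fun f hf => le_trans ?_ (h f hf)⟩
  set B := Icc (fun _ : Fin m => α) (fun _ => β) with hB
  set Q := Icc (fun _ : Fin (m + 1) => min α 1) (fun _ => 2 * max β 1) with hQ
  have hQm : MeasurableSet Q := measurableSet_Icc
  have hBm : MeasurableSet B := measurableSet_Icc
  have e1 : ∫⁻ a in Q, Gf δ p f a = ∫⁻ a, Q.indicator (GQ δ p f) a := by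
    rw [lintegral_indicator hQm]
    refine setLIntegral_congr_fun hQm fun a ha => ?_
    exact (GQ_eq hδ hf (fun j => lt_of_lt_of_le hα' (ha.1 j))).symm
  rw [e1, lint_cons _ ((GQ_meas hδ hf).indicator hQm)]
  have e2 : ∀ s ∈ Icc (1 : ℝ) 2, ∫⁻ b in B, Gf δ p f (Fin.cons 1 b) ≤
      ∫⁻ b : Fin m → ℝ, Q.indicator (GQ δ p f) (Fin.cons s b) := by
    intro s hs
    have hs0 : 0 < s := by linarith [hs.1]
    rw [lint_dg' (fun _ : Fin m => s) (fun _ => hs0)
      (fun b => Q.indicator (GQ δ p f) (Fin.cons s b)), ← lintegral_indicator hBm]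
    calc ∫⁻ b, B.indicator (fun b => Gf δ p f (Fin.cons 1 b)) b
        ≤ ∫⁻ b : Fin m → ℝ, Q.indicator (GQ δ p f) (Fin.cons s (dg (fun _ => s) b)) := by
          refine lintegral_mono fun b => ?_
          by_cases hb : b ∈ B
          · have hmem : (Fin.cons s (dg (fun _ => s) b) : Fin (m + 1) → ℝ) ∈ Q := by
              constructor
              · intro j
                refine Fin.cases ?_ (fun i => ?_) j
                · simp only [Fin.cons_zero]
                  exact (min_le_right _ _).trans hs.1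
                · simp only [Fin.cons_succ, dg]
                  have h1 := hb.1 i
                  simp only at h1
                  have h2 : min α 1 ≤ α := min_le_left _ _
                  nlinarith [hs.1]
              · intro j
                refine Fin.cases ?_ (fun i => ?_) j
                · simp only [Fin.cons_zero]
                  have h2 : (1 : ℝ) ≤ max β 1 := le_max_right _ _
                  linarith [hs.2]
                · simp only [Fin.cons_succ, dg]
                  have h1 := hb.1 i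
                  have h3 := hb.2 i
                  simp only at h1 h3
                  have h2 : β ≤ max β 1 := le_max_left _ _
                  nlinarith [hs.1, hs.2]
            have hpos : ∀ j, 0 < (Fin.cons s (dg (fun _ => s) b) : Fin (m + 1) → ℝ) j :=
              fun j => lt_of_lt_of_le hα' (hmem.1 j)
            rw [indicator_of_mem hb, indicator_of_mem hmem, GQ_eq hδ hf hpos, cons_smul,
              Gf_hom δ p hs0]
          · rw [indicator_of_notMem hb]
            exact zero_le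
      _ ≤ _ := by
          refine le_mul_of_one_le_left' ?_
          rw [ENNReal.one_le_ofReal, Finset.prod_const]
          exact one_le_pow₀ hs.1
  calc ∫⁻ b in B, Gf δ p f (Fin.cons 1 b)
      = ∫⁻ _s in Icc (1 : ℝ) 2, ∫⁻ b in B, Gf δ p f (Fin.cons 1 b) := by
        rw [setLIntegral_const, Real.volume_Icc]
        norm_num
    _ ≤ ∫⁻ s in Icc (1 : ℝ) 2, ∫⁻ b : Fin m → ℝ, Q.indicator (GQ δ p f) (Fin.cons s b) :=
        setLIntegral_mono' measurableSet_Icc e2
    _ ≤ _ := setLIntegral_le_lintegral _ _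

/-- Almost everywhere convergence for almost every ellipsoid with one fixed axis. -/
theorem ae_one (m : ℕ) (p δ : ℝ) (hp : 2 ≤ p) (hp4 : p ≤ 4) (hδ : 0 < δ)
    (f : (Fin (m + 1) → ℝ) → ℂ) (hf : Integrable f)
    (hfp : MemLp f (ENNReal.ofReal p) volume) :
    ∀ᵐ b : Fin m → ℝ, (∀ j, 0 < b j) → ∀ᵐ x : Fin (m + 1) → ℝ,
      Tendsto (fun R => S δ (Fin.cons 1 b) R f x) atTop (𝓝 (f x)) := by
  have h := ae_conv (m + 1) p δ hp hp4 hδ f hf hfp
  have h1 := (mp_cons m).quasiMeasurePreserving.ae h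
  rw [Measure.volume_eq_prod] at h1
  have h2 := Measure.ae_ae_of_ae_prod h1
  have h0 : ∃ᵐ s : ℝ, 0 < s := by
    rw [frequently_ae_iff]
    have : {a : ℝ | 0 < a} = Ioi 0 := rfl
    rw [this, Real.volume_Ioi]
    exact ENNReal.top_ne_zero
  obtain ⟨s, hs, h3⟩ := (h0.and_eventually h2).exists
  have hq : 0 < Real.sqrt s := Real.sqrt_pos.2 hs
  have h4 := (dg_mp (fun _ : Fin m => s) (fun _ => hs)).ae h3
  filter_upwards [h4] with b hb hbpos
  rw [cons_smul] at hb
  have h5 := hb (fun j => by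
    refine mul_pos hs ?_
    refine Fin.cases ?_ (fun i => ?_) j
    · simp
    · simpa using hbpos i)
  filter_upwards [h5] with x hx
  have h6 : Tendsto (fun R : ℝ => R * Real.sqrt s) atTop atTop :=
    tendsto_id.atTop_mul_const hq
  refine (hx.comp h6).congr fun R => ?_
  simp only [Function.comp]
  rw [S_hom δ hs, mul_div_assoc, div_self hq.ne', mul_one]

end Pool.Agent.H380.BE
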