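import Pool.Agent.H380.BE.All

/-!
# Scaling of the Bochner-Riesz means over ellipsoids
-/

set_option autoImplicit false

open MeasureTheory Set Metric Complex Filter Topology
open scoped ENNReal

namespace Pool.Agent.H380.BE

open Pool.Agent.W203.BE

/-- diagonal dilation -/
def dg {n : ℕ} (c : Fin n → ℝ) (x : Fin n → ℝ) : Fin n → ℝ := fun j => c j * x j

lemma dg_eq {n : ℕ} (c : Fin n → ℝ) : (dg c : (Fin n → ℝ) → Fin n → ℝ) = Matrix.toLin' (Matrix.diagonal c) := by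
  funext x
  ext j
  simp [dg, Matrix.mulVec_diagonal]

lemma dg_meas {n : ℕ} (c : Fin n → ℝ) : Measurable (dg c) := by
  refine measurable_pi_lambda _ fun j => ?_
  exact (measurable_pi_apply j).const_mul _

lemma map_dg {n : ℕ} (c : Fin n → ℝ) (hc : ∀ j, 0 < c j) :
    ENNReal.ofReal (∏ j, c j) • Measure.map (dg c) volume = (volume : Measure (Fin n → ℝ)) := by
  have hp : 0 < ∏ j, c j := Finset.prod_pos fun j _ => hc j
  have h : Matrix.det (Matrix.diagonal c) ≠ 0 := by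
    rw [Matrix.det_diagonal]; exact hp.ne'
  have h2 := Real.smul_map_diagonal_volume_pi h
  rw [Matrix.det_diagonal, abs_of_pos hp] at h2
  rw [dg_eq]
  exact h2

lemma lint_dg {n : ℕ} (c : Fin n → ℝ) (hc : ∀ j, 0 < c j) (F : (Fin n → ℝ) → ℝ≥0∞) (hF : Measurable F) :
    ∫⁻ x, F x = ENNReal.ofReal (∏ j, c j) * ∫⁻ x, F (dg c x) := by
  conv_lhs => rw [← map_dg c hc]
  rw [lintegral_smul_measure, lintegral_map hF (dg_meas c)]
  rfl

/-- the dilation as a measurable equivalence -/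
noncomputable def dge {n : ℕ} (c : Fin n → ℝ) (hc : ∀ j, 0 < c j) : (Fin n → ℝ) ≃ᵐ (Fin n → ℝ) where
  toFun := dg c
  invFun := dg (fun j => (c j)⁻¹)
  left_inv x := by
    funext j
    simp only [dg]
    rw [← mul_assoc, inv_mul_cancel₀ (hc j).ne', one_mul]
  right_inv x := by
    funext j
    simp only [dg]
    rw [← mul_assoc, mul_inv_cancel₀ (hc j).ne', one_mul]
  measurable_toFun := dg_meas _
  measurable_invFun := dg_meas _

lemma lint_dg' {n : ℕ} (c : Fin n → ℝ) (hc : ∀ j, 0 < c j) (F : (Fin n → ℝ) → ℝ≥0∞) :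
    ∫⁻ x, F x = ENNReal.ofReal (∏ j, c j) * ∫⁻ x, F (dg c x) := by
  conv_lhs => rw [← map_dg c hc]
  rw [lintegral_smul_measure]
  have : ∫⁻ x, F x ∂(Measure.map (dg c) volume) = ∫⁻ x, F (dg c x) := by
    show ∫⁻ x, F x ∂(Measure.map (dge c hc) volume) = ∫⁻ x, F (dge c hc x)
    exact lintegral_map_equiv F (dge c hc)
  rw [this]
  rfl

lemma int_dg {n : ℕ} (c : Fin n → ℝ) (hc : ∀ j, 0 < c j) (F : (Fin n → ℝ) → ℂ) :
    ∫ x, F x = ((∏ j, c j : ℝ) : ℂ) * ∫ x, F (dg c x) := by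
  have hp : 0 < ∏ j, c j := Finset.prod_pos fun j _ => hc j
  conv_lhs => rw [← map_dg c hc]
  rw [integral_smul_measure]
  have : ∫ x, F x ∂(Measure.map (dg c) volume) = ∫ x, F (dg c x) := by
    show ∫ x, F x ∂(Measure.map (dge c hc) volume) = ∫ x, F (dge c hc x)
    exact MeasureTheory.integral_map_equiv (dge c hc) F
  rw [this, ENNReal.toReal_ofReal hp.le]
  simp

lemma dg_mp {n : ℕ} (c : Fin n → ℝ) (hc : ∀ j, 0 < c j) : Measure.QuasiMeasurePreserving (dg c) volume volume := by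
  refine ⟨dg_meas c, ?_⟩
  have hp : 0 < ∏ j, c j := Finset.prod_pos fun j _ => hc j
  refine Measure.AbsolutelyContinuous.trans ?_ (le_of_eq (map_dg c hc)).absolutelyContinuous
  exact Measure.absolutelyContinuous_smul (by simpa using hp)

lemma integrable_dg {n : ℕ} (c : Fin n → ℝ) (hc : ∀ j, 0 < c j) {f : (Fin n → ℝ) → ℂ} (hf : Integrable f) :
    Integrable (fun x => f (dg c x)) := by
  have hp : 0 < ∏ j, c j := Finset.prod_pos fun j _ => hc j
  rw [← map_dg c hc] at hf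
  have h1 : Integrable f (Measure.map (dg c) volume) := by
    rw [integrable_smul_measure (by simpa using hp) ENNReal.ofReal_ne_top] at hf
    exact hf
  exact (integrable_map_equiv (dge c hc) f).1 h1

/-- Scaling. -/
theorem S_scale {n : ℕ} (δ : ℝ) (c : Fin n → ℝ) (hc : ∀ j, 0 < c j) (a : Fin n → ℝ) (R : ℝ)
    (f : (Fin n → ℝ) → ℂ) (x : Fin n → ℝ) :
    S δ (fun j => c j ^ 2 * a j) R f (dg c x) = S δ a R (fun y => f (dg c y)) x := by
  have hp : 0 < ∏ j, c j := Finset.prod_pos fun j _ => hc j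
  set H : (Fin n → ℝ) → ℂ := fun η => (((max (1 - (∑ j, a j * η j ^ 2) / R ^ 2) 0) ^ δ : ℝ) : ℂ) *
    (∫ y : Fin n → ℝ, cexp (-(2 * (Real.pi : ℂ) * I * ((∑ j, y j * η j : ℝ) : ℂ))) * f (dg c y)) *
    cexp (2 * (Real.pi : ℂ) * I * ((∑ j, x j * η j : ℝ) : ℂ)) with hH
  have e1 : ∀ ξ : Fin n → ℝ, (((max (1 - (∑ j, c j ^ 2 * a j * ξ j ^ 2) / R ^ 2) 0) ^ δ : ℝ) : ℂ) *
    (∫ y : Fin n → ℝ, cexp (-(2 * (Real.pi : ℂ) * I * ((∑ j, y j * ξ j : ℝ) : ℂ))) * f y) *
    cexp (2 * (Real.pi : ℂ) * I * ((∑ j, dg c x j * ξ j : ℝ) : ℂ)) = ((∏ j, c j : ℝ) : ℂ) * H (dg c ξ) := by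
    intro ξ
    have i1 : (∫ y : Fin n → ℝ, cexp (-(2 * (Real.pi : ℂ) * I * ((∑ j, y j * ξ j : ℝ) : ℂ))) * f y) =
        ((∏ j, c j : ℝ) : ℂ) * ∫ y : Fin n → ℝ, cexp (-(2 * (Real.pi : ℂ) * I *
          ((∑ j, y j * dg c ξ j : ℝ) : ℂ))) * f (dg c y) := by
      rw [int_dg c hc]
      congr 2
      funext y
      have : (∑ j, dg c y j * ξ j) = ∑ j, y j * dg c ξ j := by
        refine Finset.sum_congr rfl fun j _ => ?_
        simp only [dg]
        ring
      rw [this]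
    have i2 : (∑ j, c j ^ 2 * a j * ξ j ^ 2) = ∑ j, a j * dg c ξ j ^ 2 := by
      refine Finset.sum_congr rfl fun j _ => ?_
      simp only [dg]
      ring
    have i3 : (∑ j, dg c x j * ξ j) = ∑ j, x j * dg c ξ j := by
      refine Finset.sum_congr rfl fun j _ => ?_
      simp only [dg]
      ring
    rw [i1, i2, i3, hH]
    simp only
    ring
  unfold S
  rw [integral_congr_ae (Eventually.of_forall e1), integral_const_mul, ← int_dg c hc H]

end Pool.Agent.H380.BE
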